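import Pool.Agent.L7h31.KN.Stm

set_option autoImplicit false

/-!
# Project KN: part REP (representatives of the classes of `v = v' ∨ v = - v'`)
-/

namespace Pool.Agent.L7h8.KN

open Pool.Agent.L7h31.KN

/-- equal or opposite -/
def st {V J : Type} [AddCommGroup V] (g : J → V) : Setoid J where
  r a b := g a = g b ∨ g a = - g b
  iseqv :=
    { refl := fun _ => Or.inl rfl
      symm := by
        rintro a b (h | h)
        · exact Or.inl h.symm
        · exact Or.inr (by rw [h, neg_neg])
      trans := by
        rintro a b c (h | h) (h' | h')
        · exact Or.inl (h.trans h')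
        · exact Or.inr (h.trans h')
        · exact Or.inr (by rw [h, h'])
        · exact Or.inl (by rw [h, h', neg_neg]) }

theorem s_REP : S_REP := by
  classical
  intro V J _ _ g
  refine ⟨Quotient (st g), inferInstance, inferInstance, fun i => g i.out, fun j => Quotient.mk (st g) j,
    fun j => decide (g j = g (Quotient.mk (st g) j).out), ?_, fun i => ⟨i.out, Quotient.out_eq i⟩, ?_⟩
  · intro j
    by_cases h : g j = g (Quotient.mk (st g) j).out
    · simp only [decide_eq_true_eq, if_pos h]
      exact h
    · simp only [decide_eq_true_eq, if_neg h]
      have hr : (st g).r j (Quotient.mk (st g) j).out := (st g).symm (Quotient.mk_out (s := st g) j)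
      rcases hr with h' | h'
      · exact absurd h' h
      · exact h'
  · intro i i' h
    have hr : (st g).r i.out i'.out := h
    have := Quotient.sound (s := st g) hr
    rwa [Quotient.out_eq, Quotient.out_eq] at this

end Pool.Agent.L7h8.KN
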